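import Pool.Agent.X315.LS.NegHom

set_option autoImplicit false

/-!
# Surgeries on a lifted link in the cyclic branched covers of P(3, -1, 3)

`K` is the pretzel knot `P(3, -1, 3)` and `C` is an unknotted circle around the two strands of
its middle column.  The linking number of `C` and `K` is zero, so the preimage `L` of `C` in the
`n`-fold cyclic branched cover of `K` has `n` components.  For every `n ≥ 1`, let `M` be the
result of Dehn surgery on `L` that kills `meridian ^ b i * longitude ^ a i` on the component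
number `i`, with `1 ≤ b i ≤ a i`; the slopes on different components are independent of each
other.  Then every homomorphism from the fundamental group of `M` to a left-orderable group is
trivial.  In particular this fundamental group is not left-orderable.

If `b i = 1` and `a i = q` for all `i` then `M` is the `n`-fold cyclic branched cover of
`P(3, -(2q+1), 3)`.
-/

namespace Pool.Agent.Results.MP_9ae2f3_gt.PretzelLiftSurgeries

open Pool.Agent.TH821.Hex Pool.Agent.X315.LS

/-- A nontrivial group is left-orderable if it carries a strict total order that is invariant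
under left multiplication. -/
def LeftOrderable (G : Type*) [Group G] : Prop :=
  Nontrivial G ∧ ∃ lt : G → G → Prop, IsStrictTotalOrder G lt ∧
    ∀ a b c : G, lt a b ↔ lt (c * a) (c * b)

/-- The free group on four meridians of the link `K ∪ C`: `some j` for an arc of `K`, and `none`
for the circle `C`. -/
abbrev Free : Type := FreeGroup (Option (Fin 3))

/-- The meridian `a j` of the arc of `K` at the top of the diagram that joins the top right end
of column `j - 1` to the top left end of column `j`, oriented into column `j`. -/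
def arc (j : Fin 3) : Free := FreeGroup.of (some j)

/-- The meridian of the front part of the circle `C`. -/
def circle : Free := FreeGroup.of none

/-- The product of the downward meridians of the two strands around which `C` goes; it is
a longitude of `C`, which bounds a disc that meets `K` in two points. -/
def longitude : Free := arc 1 * (arc 2)⁻¹

/-- One crossing of a vertical twist region: if the two strands, both oriented downwards, have
meridians `(x, y)` (left, right) above the crossing, then they have meridians `(y, y⁻¹ x y)`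
below it.  The inverse is the crossing of the other handedness. -/
def crossing (G : Type*) [Group G] : Equiv.Perm (G × G) where
  toFun w := (w.2, w.2⁻¹ * w.1 * w.2)
  invFun w := (w.1 * w.2 * w.1⁻¹, w.1)
  left_inv w := by ext <;> simp [mul_assoc]
  right_inv w := by ext <;> simp [mul_assoc]

/-- The downward meridians of the two strands of column `j` just above the crossings of this
column.  The strands of column `1` first pass under the front part of the circle `C`. -/
def strands (j : Fin 3) : Free × Free :=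
  if j = 1 then (circle⁻¹ * arc 1 * circle, circle⁻¹ * (arc 2)⁻¹ * circle)
  else (arc j, (arc (j + 1))⁻¹)

/-- The numbers of crossings of the columns: `3`, `-1`, `3`. -/
def columns : Fin 3 → ℤ := ![3, -1, 3]

/-- The downward meridians of the two strands at the bottom of column `j`. -/
def bottom (j : Fin 3) : Free × Free := (crossing Free ^ columns j) (strands j)

/-- The bottom right end of column `j` is joined to the bottom left end of column `j + 1`. -/
def relator (j : Fin 3) : Free := (bottom j).2 * (bottom (j + 1)).1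

/-- The relators of the group of the link `K ∪ C`: the ends of the columns are joined, and the
meridian and the longitude of `C` commute. -/
def linkRelators : Set Free :=
  Set.range relator ∪ {circle * longitude * (longitude * circle)⁻¹}

/-- The quotient of the group of the link `K ∪ C` by the `n`-th power of the meridian `a 0`
of `K`. -/
def OrbifoldGroup (n : ℕ) : Type := PresentedGroup (linkRelators ∪ {arc 0 ^ n})

instance (n : ℕ) : Group (OrbifoldGroup n) :=
  inferInstanceAs (Group (PresentedGroup (linkRelators ∪ {arc 0 ^ n})))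

section formulas
variable {G : Type*} [Group G]

theorem crossing_neg_one (w : G × G) :
    (crossing G ^ (-1 : ℤ)) w = (w.1 * w.2 * w.1⁻¹, w.1) := by
  rw [zpow_neg_one]; rfl

theorem crossing_three (w : G × G) : (crossing G ^ (3 : ℤ)) w =
    ((w.1 * w.2)⁻¹ * w.2 * (w.1 * w.2),
      ((w.1 * w.2) * (w.1 * w.2))⁻¹ * w.1 * ((w.1 * w.2) * (w.1 * w.2))) := by
  rw [show (3 : ℤ) = ((3 : ℕ) : ℤ) from rfl, zpow_natCast, pow_succ, pow_two]
  show crossing G (crossing G (crossing G w)) = _
  ext
  · show (w.2⁻¹ * w.1 * w.2)⁻¹ * w.2 * (w.2⁻¹ * w.1 * w.2) = _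
    simp only; group
  · show ((w.2⁻¹ * w.1 * w.2)⁻¹ * w.2 * (w.2⁻¹ * w.1 * w.2))⁻¹ * (w.2⁻¹ * w.1 * w.2) *
      ((w.2⁻¹ * w.1 * w.2)⁻¹ * w.2 * (w.2⁻¹ * w.1 * w.2)) = _
    simp only; group

end formulas

theorem bottom_zero : bottom 0 =
    ((arc 0 * (arc 1)⁻¹)⁻¹ * (arc 1)⁻¹ * (arc 0 * (arc 1)⁻¹),
      ((arc 0 * (arc 1)⁻¹) * (arc 0 * (arc 1)⁻¹))⁻¹ * arc 0 *
        ((arc 0 * (arc 1)⁻¹) * (arc 0 * (arc 1)⁻¹))) :=
  crossing_three _

theorem bottom_one : bottom 1 =
    ((circle⁻¹ * arc 1 * circle) * (circle⁻¹ * (arc 2)⁻¹ * circle) *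
      (circle⁻¹ * arc 1 * circle)⁻¹, circle⁻¹ * arc 1 * circle) :=
  crossing_neg_one _

theorem bottom_two : bottom 2 =
    ((arc 2 * (arc 0)⁻¹)⁻¹ * (arc 0)⁻¹ * (arc 2 * (arc 0)⁻¹),
      ((arc 2 * (arc 0)⁻¹) * (arc 2 * (arc 0)⁻¹))⁻¹ * arc 2 *
        ((arc 2 * (arc 0)⁻¹) * (arc 2 * (arc 0)⁻¹))) :=
  crossing_three _

/-- The degree of the generators: `1` for the meridians of `K` and `0` for the meridian of `C`. -/
def genDegree (n : ℕ) : Option (Fin 3) → Multiplicative (ZMod n)
  | some _ => Multiplicative.ofAdd 1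
  | none => 1

theorem degree_rel (n : ℕ) : ∀ w ∈ linkRelators ∪ {arc 0 ^ n},
    FreeGroup.lift (genDegree n) w = 1 := by
  have ha : ∀ j, FreeGroup.lift (genDegree n) (arc j) = Multiplicative.ofAdd 1 := by
    intro j
    unfold arc
    rw [FreeGroup.lift_apply_of]
    rfl
  have hc : FreeGroup.lift (genDegree n) circle = 1 := by
    unfold circle
    rw [FreeGroup.lift_apply_of]
    rfl
  rintro w ((⟨j, rfl⟩ | rfl) | rfl)
  · fin_cases j
    · show FreeGroup.lift (genDegree n) ((bottom 0).2 * (bottom 1).1) = 1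
      rw [bottom_zero, bottom_one]
      simp [ha]
    · show FreeGroup.lift (genDegree n) ((bottom 1).2 * (bottom 2).1) = 1
      rw [bottom_one, bottom_two]
      simp [ha, hc]
    · show FreeGroup.lift (genDegree n) ((bottom 2).2 * (bottom 0).1) = 1
      rw [bottom_two, bottom_zero]
      simp [ha, hc]
  · simp [longitude, ha, hc]
  · rw [map_pow, ha, ← ofAdd_nsmul]
    simp

/-- The homomorphism of the orbifold group to `Z/n` that sends the meridians `a j` of `K` to
`1` and the meridian of `C` to `0`. -/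
def degree (n : ℕ) : OrbifoldGroup n →* Multiplicative (ZMod n) :=
  PresentedGroup.toGroup (degree_rel n)

/-- The fundamental group of the complement of the preimage `L` of `C` in the `n`-fold cyclic
branched cover of `K`: the kernel of the homomorphism to `Z/n` from the quotient of the group
of `K ∪ C` by the `n`-th power of a meridian of `K`. -/
def ComplementGroup (n : ℕ) : Type := (degree n).ker

instance (n : ℕ) : Group (ComplementGroup n) := inferInstanceAs (Group (degree n).ker)

/-- The image in the orbifold group of an element of the free group. -/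
def cls (n : ℕ) (w : Free) : OrbifoldGroup n := PresentedGroup.mk _ w

theorem cls_mem (n : ℕ) {w : Free} (hw : FreeGroup.lift (genDegree n) w = 1) (i : ZMod n) :
    cls n (arc 0) ^ i.val * cls n w * (cls n (arc 0) ^ i.val)⁻¹ ∈ (degree n).ker := by
  have h1 : degree n (cls n w) = FreeGroup.lift (genDegree n) w := rfl
  show degree n _ = 1
  rw [map_mul, map_mul, h1, hw, map_inv]
  simp

theorem degree_circle (n : ℕ) : FreeGroup.lift (genDegree n) circle = 1 := by
  unfold circle
  rw [FreeGroup.lift_apply_of]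
  rfl

theorem degree_longitude (n : ℕ) : FreeGroup.lift (genDegree n) longitude = 1 := by
  unfold longitude arc
  rw [map_mul, map_inv, FreeGroup.lift_apply_of, FreeGroup.lift_apply_of]
  exact mul_inv_cancel _

/-- The meridian of the component number `i` of `L`: the conjugate of the meridian of `C` by
the `i`-th power of the meridian `a 0` of `K`. -/
def meridianLift (n : ℕ) (i : ZMod n) : ComplementGroup n :=
  ⟨cls n (arc 0) ^ i.val * cls n circle * (cls n (arc 0) ^ i.val)⁻¹,
    cls_mem n (degree_circle n) i⟩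

/-- The longitude of the component number `i` of `L`: the conjugate of the longitude of `C` by
the `i`-th power of the meridian `a 0` of `K`. -/
def longitudeLift (n : ℕ) (i : ZMod n) : ComplementGroup n :=
  ⟨cls n (arc 0) ^ i.val * cls n longitude * (cls n (arc 0) ^ i.val)⁻¹,
    cls_mem n (degree_longitude n) i⟩

/-- The elements `meridian ^ b i * longitude ^ a i` for the component number `i` of `L`. -/
def fillRelators (n : ℕ) (a b : ZMod n → ℕ) : Set (ComplementGroup n) :=
  Set.range fun i : ZMod n => meridianLift n i ^ b i * longitudeLift n i ^ a i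

/-- The fundamental group of the result of Dehn surgery on `L`: on the component number `i` the
slope is `meridian ^ b i * longitude ^ a i`, for coprime `a i` and `b i`. -/
def SurgeryGroup (n : ℕ) (a b : ZMod n → ℕ) : Type :=
  ComplementGroup n ⧸ Subgroup.normalClosure (fillRelators n a b)

instance (n : ℕ) (a b : ZMod n → ℕ) : Group (SurgeryGroup n a b) :=
  inferInstanceAs (Group (ComplementGroup n ⧸ Subgroup.normalClosure (fillRelators n a b)))

/-- `G` has no nontrivial homomorphism to a left-orderable group; in particular it is not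
left-orderable. -/
theorem not_lo {G : Type} [Group G]
    (h : ∀ (H : Type) [Group H], LeftOrderable H → ∀ f : G →* H, ∀ g, f g = 1) :
    ¬ LeftOrderable G := by
  intro hG
  obtain ⟨a, b, hab⟩ := hG.1
  have key := h G hG (MonoidHom.id _)
  exact hab ((key a).trans (key b).symm)

theorem lo_order {H : Type*} [Group H] (hH : LeftOrderable H) :
    ∃ _ : LinearOrder H, ∀ a b c : H, a ≤ b ↔ c * a ≤ c * b := by
  classical
  obtain ⟨_, lt, hlt, hinv⟩ := hH
  refine ⟨linearOrderOfSTO lt, ?_⟩
  intro a b c
  show (a = b ∨ lt a b) ↔ (c * a = c * b ∨ lt (c * a) (c * b))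
  rw [mul_right_inj, ← hinv]

theorem relA_aux {G : Type*} [Group G] (s X V Q : G) (hQ : V * Q = Q * V)
    (R : (X * X)⁻¹ * s * (X * X) * (Q * (X⁻¹ * s) * Q⁻¹ * (Q * ((X * V)⁻¹ * s)⁻¹ * Q⁻¹) *
      (Q * (X⁻¹ * s) * Q⁻¹)⁻¹) = 1) :
    s * (X * X * V * Q) * s⁻¹ = X * X * V * Q * (X * V)⁻¹ := by
  have h1 : Q * (X⁻¹ * s) * Q⁻¹ * (Q * ((X * V)⁻¹ * s)⁻¹ * Q⁻¹) * (Q * (X⁻¹ * s) * Q⁻¹)⁻¹ =
      (V * Q) * s⁻¹ * X * (V * Q)⁻¹ * (V * Q) * V * (V * Q)⁻¹ := by
    have h2 : Q⁻¹ = V * (V * Q)⁻¹ := by rw [hQ]; group
    have h3 : Q * V = V * Q := hQ.symm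
    calc Q * (X⁻¹ * s) * Q⁻¹ * (Q * ((X * V)⁻¹ * s)⁻¹ * Q⁻¹) * (Q * (X⁻¹ * s) * Q⁻¹)⁻¹
        = Q * (X⁻¹ * s) * (s⁻¹ * X * V) * (s⁻¹ * X) * Q⁻¹ := by group
      _ = (Q * V) * (s⁻¹ * X) * Q⁻¹ := by group
      _ = (V * Q) * (s⁻¹ * X) * (V * (V * Q)⁻¹) := by rw [h3, ← h2]
      _ = _ := by group
  rw [h1] at R
  calc s * (X * X * V * Q) * s⁻¹ = X * X * ((X * X)⁻¹ * s * (X * X) * ((V * Q) * s⁻¹ * X *
        (V * Q)⁻¹ * (V * Q) * V * (V * Q)⁻¹)) * (V * Q) * V⁻¹ * X⁻¹ := by
          group
    _ = _ := by rw [R]; group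

theorem relB_aux {G : Type*} [Group G] (s X V Q : G)
    (R : Q * (X⁻¹ * s) * Q⁻¹ * ((X * V) * s⁻¹ * (X * V)⁻¹) = 1) :
    s * (Q⁻¹ * (X * V)) * s⁻¹ = X * Q⁻¹ * (X * V) := by
  calc s * (Q⁻¹ * (X * V)) * s⁻¹ = X * Q⁻¹ * (Q * (X⁻¹ * s) * Q⁻¹ *
        ((X * V) * s⁻¹ * (X * V)⁻¹)) * (X * V) := by
          group
    _ = _ := by rw [R]; group

theorem surgery_trivial {n : ℕ} (hn : 0 < n) (a b : ZMod n → ℕ) (hb : ∀ i, 1 ≤ b i)
    (hab : ∀ i, b i ≤ a i) {H : Type*} [Group H] (hH : LeftOrderable H)
    (f : SurgeryGroup n a b →* H) (g : SurgeryGroup n a b) : f g = 1 := by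
  obtain ⟨_, hinv⟩ := lo_order hH
  set c : Fin 3 → OrbifoldGroup n := fun j => cls n (arc j) with hc
  set Q := (cls n circle)⁻¹ with hQ
  set μ : Free →* OrbifoldGroup n := PresentedGroup.mk (linkRelators ∪ {arc 0 ^ n}) with hμ
  have hs : c 0 ^ n = 1 := by
    have h1 : μ (arc 0 ^ n) = 1 := PresentedGroup.one_of_mem (Or.inr rfl)
    rwa [map_pow] at h1
  have R0 : μ (relator 0) = 1 := PresentedGroup.one_of_mem (Or.inl (Or.inl ⟨0, rfl⟩))
  have R1 : μ (relator 1) = 1 := PresentedGroup.one_of_mem (Or.inl (Or.inl ⟨1, rfl⟩))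
  have RC : μ (circle * longitude * (longitude * circle)⁻¹) = 1 :=
    PresentedGroup.one_of_mem (Or.inl (Or.inr rfl))
  have e0 : relator 0 = (bottom 0).2 * (bottom 1).1 := rfl
  have e1 : relator 1 = (bottom 1).2 * (bottom 2).1 := rfl
  rw [e0, bottom_zero, bottom_one] at R0
  rw [e1, bottom_one, bottom_two] at R1
  simp only [map_mul, map_inv] at R0 R1
  have hμa : ∀ j, μ (arc j) = c j := fun _ => rfl
  have hμF : μ circle = Q⁻¹ := (inv_inv _).symm
  simp only [hμa, hμF, inv_inv] at R0 R1
  set s := c 0 with hs0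
  set X := s * (c 1)⁻¹ with hX
  set V := c 1 * (c 2)⁻¹ with hV
  have f1 : c 1 = X⁻¹ * s := by rw [hX]; group
  have f2 : c 2 = (X * V)⁻¹ * s := by rw [hV, hX]; group
  have f3 : c 2 * s⁻¹ = (X * V)⁻¹ := by rw [f2]; group
  have fl : cls n longitude = V := by
    show μ (arc 1 * (arc 2)⁻¹) = _
    rw [map_mul, map_inv]
    rfl
  have hcomm : V * Q = Q * V := by
    have h1 : Q⁻¹ * V * (V * Q⁻¹)⁻¹ = 1 := by
      rw [← fl, hQ, inv_inv]
      have := RC
      simp only [map_mul, map_inv] at this
      exact this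
    calc V * Q = Q * (Q⁻¹ * V * (V * Q⁻¹)⁻¹) * V := by group
      _ = _ := by rw [h1]; group
  have A : s * (X * X * V * Q) * s⁻¹ = X * X * V * Q * (X * V)⁻¹ := by
    rw [f2, f1] at R0
    exact relA_aux s X V Q hcomm R0
  have B : s * (Q⁻¹ * (X * V)) * s⁻¹ = X * Q⁻¹ * (X * V) := by
    rw [f3, f1, inv_inv] at R1
    exact relB_aux s X V Q R1
  have hgen : ∀ K : Subgroup (OrbifoldGroup n), s ∈ K → X ∈ K → V ∈ K → Q ∈ K → K = ⊤ := by
    intro K h1 h2 h3 h4
    have key : ∀ j, (PresentedGroup.of j : OrbifoldGroup n) ∈ K := by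
      rintro (_ | j)
      · exact inv_mem_iff.mp h4
      · fin_cases j
        · exact h1
        · show c 1 ∈ K
          rw [f1]; exact mul_mem (inv_mem h2) h1
        · show c 2 ∈ K
          rw [f2]; exact mul_mem (inv_mem (mul_mem h2 h3)) h1
    have h5 : Subgroup.closure (Set.range (PresentedGroup.of
        (rels := linkRelators ∪ {arc 0 ^ n}))) ≤ K := by
      refine (Subgroup.closure_le (G := OrbifoldGroup n) K).mpr ?_
      rintro _ ⟨j, rfl⟩
      exact key j
    rw [PresentedGroup.closure_range_of] at h5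
    exact eq_top_iff.mpr h5
  have da : ∀ j, degree n (c j) = Multiplicative.ofAdd 1 :=
    fun j => PresentedGroup.toGroup.of _
  have dX : degree n X = 1 := by
    rw [hX, map_mul, map_inv, hs0, da, da, mul_inv_cancel]
  have dV : degree n V = 1 := by
    rw [hV, map_mul, map_inv, da, da, mul_inv_cancel]
  have dQ : degree n Q = 1 := by
    have h1 : degree n (cls n circle) = 1 := PresentedGroup.toGroup.of _
    rw [hQ, map_inv, h1, inv_one]
  set π : ComplementGroup n →* SurgeryGroup n a b :=
    QuotientGroup.mk' (Subgroup.normalClosure (fillRelators n a b)) with hπ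
  set φ : (degree n).ker →* H := f.comp π with hφ
  have hfill : ∀ i, φ (ck (degree n) s i ⟨Q, dQ⟩) ^ b i =
      φ (ck (degree n) s i ⟨V, dV⟩) ^ a i := by
    intro i
    have h1 : π (meridianLift n i ^ b i * longitudeLift n i ^ a i) = 1 :=
      (QuotientGroup.eq_one_iff (N := Subgroup.normalClosure (fillRelators n a b)) _).mpr
        (Subgroup.subset_normalClosure ⟨i, rfl⟩)
    have h2 : f (π (meridianLift n i)) = (φ (ck (degree n) s i ⟨Q, dQ⟩))⁻¹ := by
      rw [← map_inv, ← map_inv]
      refine congrArg φ (Subtype.ext ?_)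
      show cls n (arc 0) ^ i.val * cls n circle * (cls n (arc 0) ^ i.val)⁻¹ =
        s ^ i.val * Q⁻¹ * (s ^ i.val)⁻¹
      rw [hQ, inv_inv]
    have h3 : f (π (longitudeLift n i)) = φ (ck (degree n) s i ⟨V, dV⟩) := by
      refine congrArg φ (Subtype.ext ?_)
      show cls n (arc 0) ^ i.val * cls n longitude * (cls n (arc 0) ^ i.val)⁻¹ =
        s ^ i.val * V * (s ^ i.val)⁻¹
      rw [fl]
    have h4 := congrArg f h1
    rw [map_mul, map_mul, map_pow, map_pow, map_pow, map_pow, map_one, h2, h3] at h4
    rw [inv_pow, inv_mul_eq_one] at h4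
    exact h4
  obtain ⟨g, rfl⟩ : ∃ g', π g' = g :=
    QuotientGroup.mk'_surjective (Subgroup.normalClosure (fillRelators n a b)) g
  exact neg_hom hn hs hgen (degree n) (da 0) dX dV dQ hcomm A B hinv φ a b hb hab hfill g

theorem result (n : ℕ) (hn : 0 < n) (a b : ZMod n → ℕ) (hb : ∀ i, 1 ≤ b i)
    (hab : ∀ i, b i ≤ a i) :
    ¬ LeftOrderable (SurgeryGroup n a b) ∧
    ∀ (H : Type) [Group H], LeftOrderable H →
      ∀ f : SurgeryGroup n a b →* H, ∀ g, f g = 1 := by
  have h : ∀ (H : Type) [Group H], LeftOrderable H →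
      ∀ f : SurgeryGroup n a b →* H, ∀ g, f g = 1 :=
    fun H _ hH f g => surgery_trivial hn a b hb hab hH f g
  exact ⟨not_lo h, h⟩

end Pool.Agent.Results.MP_9ae2f3_gt.PretzelLiftSurgeries
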